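import Pool.Agent.helper82.CH.SpecN

/-! # Row chn:NHH (MP_2e0e07_nt): norms of ideals prime to `m` act on the roots of unity by Galois elements -/

set_option autoImplicit false

open NumberField Complex Pool.Agent.UN

namespace Pool.Agent.CH

/-- `M / F` is Galois -/
theorem NHH_gal {F M : Type} [Field F] [NumberField F] [Field M] [NumberField M] [Algebra F M]
    (m : ℕ) (z : M) (hm : 0 < m) (hz : IsPrimitiveRoot z m) (hadj : Algebra.adjoin F {z} = ⊤) :
    IsGalois F M := by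
  have hfd : FiniteDimensional F M := Module.Finite.of_restrictScalars_finite ℚ F M
  have h1 : IsCyclotomicExtension {m} F M := by
    rw [IsCyclotomicExtension.iff_adjoin_eq_top]
    refine ⟨?_, ?_⟩
    · intro n hn _
      rw [Set.mem_singleton_iff] at hn
      subst hn
      exact ⟨z, hz⟩
    · rw [eq_top_iff, ← hadj]
      apply Algebra.adjoin_mono
      rintro x hx
      rw [Set.mem_singleton_iff] at hx
      subst hx
      exact ⟨m, Set.mem_singleton m, hm.ne', hz.pow_eq_one⟩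
  exact IsCyclotomicExtension.isGalois {m} F M

/-- one prime -/
theorem NHH_prime {F M : Type} [Field F] [NumberField F] [Field M] [NumberField M] [Algebra F M] [IsGalois F M]
    (m : ℕ) (z : M) (hm : 0 < m) (hz : IsPrimitiveRoot z m) (P : Ideal (𝓞 F)) (hP : P.IsPrime) (hP0 : P ≠ ⊥)
    (hPm : ((m : ℕ) : 𝓞 F) ∉ P) : ∃ g : M ≃ₐ[F] M, g z = z ^ (Ideal.absNorm P) := by
  have hfd : FiniteDimensional F M := Module.Finite.of_restrictScalars_finite ℚ F M
  obtain ⟨⟨Q, hQp, hQl⟩⟩ := P.nonempty_primesOver (S := 𝓞 M)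
  have hIQ : Q.under (𝓞 F) = P := (Ideal.over_def Q P).symm
  have hQ0 : Q ≠ ⊥ := Ideal.ne_bot_of_liesOver_of_ne_bot hP0 Q
  have hfin : Finite (𝓞 M ⧸ Q) := Ideal.finiteQuotientOfFreeOfNeBot Q hQ0
  have hinv : Algebra.IsInvariant (𝓞 F) (𝓞 M) (M ≃ₐ[F] M) := IsGaloisGroup.isInvariant
  obtain ⟨τ, hτ⟩ := IsArithFrobAt.exists_of_isInvariant (𝓞 F) (M ≃ₐ[F] M) Q
  have hcard : Nat.card (𝓞 F ⧸ Q.under (𝓞 F)) = Ideal.absNorm P := by
    rw [hIQ, Ideal.absNorm_apply, Submodule.cardQuot_apply]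
  have hmQ : ((m : ℕ) : 𝓞 M) ∉ Q := by
    intro h1
    apply hPm
    rw [← hIQ, Ideal.under_def, Ideal.mem_comap, map_natCast]
    exact h1
  set zO : 𝓞 M := ⟨z, hz.isIntegral hm⟩ with hzO
  have hz1 : zO ^ m = 1 := by
    apply RingOfIntegers.ext
    show z ^ m = 1
    exact hz.pow_eq_one
  have h5 := hτ.apply_of_pow_eq_one hz1 hmQ
  rw [hcard] at h5
  refine ⟨τ, ?_⟩
  have h7 := congrArg (fun x : 𝓞 M => (algebraMap (𝓞 M) M) x) h5
  simp only [map_pow] at h7
  exact h7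

theorem NHH : NHH_stmt := by
  intro F M _ _ _ _ _ m z hm hz hadj a
  have hgal : IsGalois F M := NHH_gal m z hm hz hadj
  induction a using UniqueFactorizationMonoid.induction_on_prime with
  | h₁ =>
    intro h
    exact absurd rfl h
  | h₂ x hx =>
    intro _ _
    refine ⟨1, ?_⟩
    have h1 : x = ⊤ := by
      rw [Ideal.isUnit_iff] at hx
      exact hx
    rw [h1, Ideal.absNorm_top, pow_one]
    rfl
  | h₃ a p ha hp ih =>
    intro h0 hcop
    have ha0 : a ≠ ⊥ := ha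
    have hp0 : p ≠ ⊥ := hp.ne_zero
    have h1 : a ⊔ Ideal.span {((m : ℕ) : 𝓞 F)} = ⊤ := by
      rw [eq_top_iff, ← hcop]
      exact sup_le_sup_right Ideal.mul_le_right _
    have h2 : p ⊔ Ideal.span {((m : ℕ) : 𝓞 F)} = ⊤ := by
      rw [eq_top_iff, ← hcop]
      exact sup_le_sup_right Ideal.mul_le_left _
    have hpp : p.IsPrime := Ideal.isPrime_of_prime hp
    have hpm : ((m : ℕ) : 𝓞 F) ∉ p := by
      intro h3
      apply hpp.ne_top
      rw [eq_top_iff, ← h2]
      apply sup_le le_rfl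
      rw [Ideal.span_le, Set.singleton_subset_iff]
      exact h3
    obtain ⟨g, hg⟩ := ih ha0 h1
    obtain ⟨τ, hτ⟩ := NHH_prime m z hm hz p hpp hp0 hpm
    refine ⟨g * τ, ?_⟩
    rw [AlgEquiv.mul_apply, hτ, map_pow, hg, map_mul, ← pow_mul, mul_comm]

end Pool.Agent.CH
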