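import Pool.Agent.helper82.CH.SpecE

/-! # Row che:SQ2 (MP_2e0e07_nt): the sum of `1 / |s₀ - ρ|²` over all zeros -/

set_option autoImplicit false

open Complex

namespace Pool.Agent.CHE

/-- comparison of two families by their fibres -/
theorem SQ2_card {N N' : ℕ} (ρ : Fin N → ℂ) (ρ' : Fin N' → ℂ) (S : Finset (Fin N))
    (h : ∀ i ∈ S, Nat.card {j // ρ j = ρ i} = Nat.card {j // ρ' j = ρ i}) : S.card ≤ N' := by
  classical
  have h1 : S.card = ∑ a ∈ S.image ρ, (S.filter (fun i => ρ i = a)).card :=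
    Finset.card_eq_sum_card_fiberwise (fun i hi => Finset.mem_image_of_mem ρ hi)
  have h2 : ∀ a ∈ S.image ρ, (S.filter (fun i => ρ i = a)).card ≤
      ((Finset.univ.filter (fun j => ρ' j ∈ S.image ρ)).filter (fun j => ρ' j = a)).card := by
    intro a ha
    have h3 : (S.filter (fun i => ρ i = a)).card ≤ (Finset.univ.filter (fun i => ρ i = a)).card :=
      Finset.card_le_card (Finset.filter_subset_filter _ (Finset.subset_univ S))
    obtain ⟨i, hi, hia⟩ := Finset.mem_image.1 ha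
    have h4 := h i hi
    rw [hia, Nat.card_eq_fintype_card, Nat.card_eq_fintype_card, Fintype.card_subtype, Fintype.card_subtype] at h4
    have h5 : (Finset.univ.filter (fun j => ρ' j = a)) ⊆
        ((Finset.univ.filter (fun j => ρ' j ∈ S.image ρ)).filter (fun j => ρ' j = a)) := by
      intro j hj
      rw [Finset.mem_filter] at hj
      rw [Finset.mem_filter, Finset.mem_filter]
      refine ⟨⟨Finset.mem_univ _, ?_⟩, hj.2⟩
      rw [hj.2]
      exact ha
    have h6 := Finset.card_le_card h5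
    omega
  have h7 : (Finset.univ.filter (fun j => ρ' j ∈ S.image ρ)).card =
      ∑ a ∈ S.image ρ, ((Finset.univ.filter (fun j => ρ' j ∈ S.image ρ)).filter (fun j => ρ' j = a)).card :=
    Finset.card_eq_sum_card_fiberwise (fun j hj => (Finset.mem_filter.1 hj).2)
  have h8 : (Finset.univ.filter (fun j => ρ' j ∈ S.image ρ)).card ≤ N' := by
    have := Finset.card_le_univ (Finset.univ.filter (fun j => ρ' j ∈ S.image ρ))
    rwa [Fintype.card_fin] at this
  rw [h1]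
  refine (Finset.sum_le_sum h2).trans ?_
  rw [← h7]
  exact h8

/-- the geometric sum -/
theorem SQ2_geom (H : ℕ) : ∑ h ∈ Finset.range H, ((h : ℝ) + 8) / 2 ^ h = 18 - ((H : ℝ) + 9) * 2 / 2 ^ H := by
  induction H with
  | zero => norm_num
  | succ H ih =>
    rw [Finset.sum_range_succ, ih]
    have h2 : (2 : ℝ) ^ H ≠ 0 := by positivity
    push_cast
    field_simp
    ring

/-- the bound for `MM` -/
theorem SQ2_MM (C l : ℝ) (hC : 1 ≤ C) (hl : 1 ≤ l) (h : ℕ) :
    MM C l (2 * 2 ^ (h + 1)) ≤ 75 * C * l * ((h : ℝ) + 8) * 2 ^ h := by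
  have h1 : (1 : ℝ) ≤ 2 ^ h := one_le_pow₀ (by norm_num)
  have h2 : (70 : ℝ) + 2 * 2 ^ (h + 1) ≤ 74 * 2 ^ h := by
    rw [pow_succ]
    linarith
  have h3 : (70 : ℝ) + 2 * 2 ^ (h + 1) ≤ 2 ^ (h + 7) := by
    have h31 : (2 : ℝ) ^ (h + 7) = 128 * 2 ^ h := by
      rw [pow_add]
      norm_num
      ring
    rw [h31]
    linarith
  have h4 : Real.log (70 + 2 * 2 ^ (h + 1)) ≤ (h : ℝ) + 7 := by
    have h5 : Real.log (70 + 2 * 2 ^ (h + 1)) ≤ Real.log (2 ^ (h + 7)) :=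
      Real.log_le_log (by positivity) h3
    rw [Real.log_pow] at h5
    have h6 : Real.log 2 ≤ 1 := by
      have := Real.log_two_lt_d9
      linarith
    push_cast at h5
    have h7 : ((h : ℝ) + 7) * Real.log 2 ≤ ((h : ℝ) + 7) * 1 :=
      mul_le_mul_of_nonneg_left h6 (by positivity)
    linarith
  have h0 : (0 : ℝ) ≤ h := Nat.cast_nonneg h
  have h8 : l + Real.log (70 + 2 * 2 ^ (h + 1)) ≤ ((h : ℝ) + 8) * l := by nlinarith
  have h9 : 0 ≤ l + Real.log (70 + 2 * 2 ^ (h + 1)) := by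
    have : 0 ≤ Real.log (70 + 2 * 2 ^ (h + 1)) := Real.log_nonneg (by linarith [pow_pos (show (0:ℝ) < 2 by norm_num) (h+1)])
    linarith
  unfold MM
  have h10 : C * (70 + 2 * 2 ^ (h + 1)) * (l + Real.log (70 + 2 * 2 ^ (h + 1))) ≤
      C * (74 * 2 ^ h) * (((h : ℝ) + 8) * l) := by
    apply mul_le_mul _ h8 h9 (by positivity)
    exact mul_le_mul_of_nonneg_left h2 (by linarith)
  have h11 : C ≤ C * 2 ^ h * (((h : ℝ) + 8) * l) := by
    have h12 : (1 : ℝ) ≤ 2 ^ h * (((h : ℝ) + 8) * l) := by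
      have h13 : (1 : ℝ) ≤ ((h : ℝ) + 8) * l := by nlinarith
      nlinarith
    nlinarith
  nlinarith

theorem SQ2 (hEFX : EFX_stmt) : SQ2_stmt := by
  classical
  intro C
  refine ⟨2700 * max C 1, ?_, ?_⟩
  · have := le_max_right C 1
    linarith
  intro Y _ _ l b E hS χ t₀ R N ρ ht hR hZ
  have hC := hS.C1
  have hl := hS.l1
  rw [max_eq_left hC]
  set s₀ : ℂ := 2 + t₀ * I with hs₀
  have hd1 : ∀ i, 1 ≤ ‖s₀ - ρ i‖ := by
    intro i
    have h1 : (s₀ - ρ i).re ≤ ‖s₀ - ρ i‖ := re_le_norm _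
    have h2 := hZ.re1 i
    have h3 : s₀.re = 2 := by
      rw [hs₀]
      simp
    rw [sub_re, h3] at h1
    linarith
  -- the count
  have hcnt : ∀ h : ℕ, ((Finset.univ.filter (fun i => ‖s₀ - ρ i‖ ≤ 2 ^ (h + 1))).card : ℝ) ≤
      2 * MM C l (2 * 2 ^ (h + 1)) := by
    intro h
    have hpow : (2 : ℝ) ≤ 2 ^ (h + 1) := by
      have h1 : (1 : ℝ) ≤ 2 ^ h := one_le_pow₀ (by norm_num)
      rw [pow_succ]
      linarith
    rcases le_total (2 * 2 ^ (h + 1)) R with hle | hle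
    · obtain ⟨N', ρ', hZ'⟩ := hEFX Y C l b E hS χ t₀ (2 * 2 ^ (h + 1)) ht (by linarith)
      have h1 : (Finset.univ.filter (fun i => ‖s₀ - ρ i‖ ≤ 2 ^ (h + 1))).card ≤ N' := by
        apply SQ2_card ρ ρ'
        intro i hi
        rw [Finset.mem_filter] at hi
        have hi2 : ‖ρ i - (2 + t₀ * I)‖ ≤ 2 ^ (h + 1) := by
          rw [norm_sub_rev]
          exact hi.2
        rw [hZ.mult (ρ i) (by linarith), hZ'.mult (ρ i) (by linarith)]
      have h2 : ((Finset.univ.filter (fun i => ‖s₀ - ρ i‖ ≤ 2 ^ (h + 1))).card : ℝ) ≤ N' := by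
        exact_mod_cast h1
      exact h2.trans hZ'.cnt
    · have h1 : ((Finset.univ.filter (fun i => ‖s₀ - ρ i‖ ≤ 2 ^ (h + 1))).card : ℝ) ≤ N := by
        have := Finset.card_le_univ (Finset.univ.filter (fun i => ‖s₀ - ρ i‖ ≤ 2 ^ (h + 1)))
        rw [Fintype.card_fin] at this
        exact_mod_cast this
      have h2 : MM C l R ≤ MM C l (2 * 2 ^ (h + 1)) := by
        unfold MM
        have h3 : Real.log (70 + R) ≤ Real.log (70 + 2 * 2 ^ (h + 1)) :=
          Real.log_le_log (by linarith) (by linarith)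
        have h4 : 0 ≤ Real.log (70 + R) := Real.log_nonneg (by linarith)
        have h5 : C * (70 + R) * (l + Real.log (70 + R)) ≤
            C * (70 + 2 * 2 ^ (h + 1)) * (l + Real.log (70 + 2 * 2 ^ (h + 1))) := by
          apply mul_le_mul _ (by linarith) (by linarith) (by positivity)
          exact mul_le_mul_of_nonneg_left (by linarith) (by linarith)
        linarith
      have h3 := hZ.cnt
      linarith
  -- one term
  obtain ⟨H, hH⟩ := pow_unbounded_of_one_lt R (show (1 : ℝ) < 2 by norm_num)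
  have hterm : ∀ i, 1 / ‖s₀ - ρ i‖ ^ 2 ≤
      ∑ h ∈ Finset.range (H + 1), if ‖s₀ - ρ i‖ ≤ 2 ^ (h + 1) then (4 : ℝ)⁻¹ ^ h else 0 := by
    intro i
    have hex : ∃ h : ℕ, ‖s₀ - ρ i‖ ≤ 2 ^ (h + 1) := by
      refine ⟨H, ?_⟩
      have h1 := hZ.dist i
      rw [norm_sub_rev] at h1
      have h2 : (2 : ℝ) ^ H ≤ 2 ^ (H + 1) := pow_le_pow_right₀ (by norm_num) (by omega)
      have h3 : ‖s₀ - ρ i‖ ≤ R / 2 := h1
      linarith
    have h0 : Nat.find hex ≤ H := by
      apply Nat.find_min'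
      have h1 := hZ.dist i
      rw [norm_sub_rev] at h1
      have h2 : (2 : ℝ) ^ H ≤ 2 ^ (H + 1) := pow_le_pow_right₀ (by norm_num) (by omega)
      have h3 : ‖s₀ - ρ i‖ ≤ R / 2 := h1
      linarith
    have h1 : (4 : ℝ)⁻¹ ^ (Nat.find hex) ≤
        ∑ h ∈ Finset.range (H + 1), if ‖s₀ - ρ i‖ ≤ 2 ^ (h + 1) then (4 : ℝ)⁻¹ ^ h else 0 := by
      have h2 := Finset.single_le_sum (f := fun h => if ‖s₀ - ρ i‖ ≤ 2 ^ (h + 1) then (4 : ℝ)⁻¹ ^ h else 0)
        (s := Finset.range (H + 1)) (fun h _ => by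
          show (0 : ℝ) ≤ if ‖s₀ - ρ i‖ ≤ 2 ^ (h + 1) then (4 : ℝ)⁻¹ ^ h else 0
          split_ifs
          · positivity
          · exact le_rfl) (Finset.mem_range.2 (Nat.lt_succ_of_le h0))
      have h3 : (if ‖s₀ - ρ i‖ ≤ 2 ^ (Nat.find hex + 1) then (4 : ℝ)⁻¹ ^ (Nat.find hex) else 0) =
          (4 : ℝ)⁻¹ ^ (Nat.find hex) := if_pos (Nat.find_spec hex)
      rw [← h3]
      exact h2
    refine le_trans ?_ h1
    rcases Nat.eq_zero_or_pos (Nat.find hex) with h2 | h2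
    · rw [h2, pow_zero, div_le_one (by have := hd1 i; positivity)]
      exact one_le_pow₀ (hd1 i)
    · have h3 := Nat.find_min hex (Nat.sub_one_lt h2.ne')
      rw [Nat.sub_add_cancel h2, not_le] at h3
      rw [inv_pow, ← one_div]
      apply one_div_le_one_div_of_le (by positivity)
      have h4 : (4 : ℝ) ^ (Nat.find hex) = (2 ^ (Nat.find hex)) ^ 2 := by
        rw [← pow_mul, mul_comm, pow_mul]
        norm_num
      rw [h4]
      exact pow_le_pow_left₀ (by positivity) h3.le 2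
  calc ∑ i, 1 / ‖s₀ - ρ i‖ ^ 2
      ≤ ∑ i, ∑ h ∈ Finset.range (H + 1), (if ‖s₀ - ρ i‖ ≤ 2 ^ (h + 1) then (4 : ℝ)⁻¹ ^ h else 0) :=
        Finset.sum_le_sum (fun i _ => hterm i)
    _ = ∑ h ∈ Finset.range (H + 1), ∑ i, (if ‖s₀ - ρ i‖ ≤ 2 ^ (h + 1) then (4 : ℝ)⁻¹ ^ h else 0) :=
        Finset.sum_comm
    _ = ∑ h ∈ Finset.range (H + 1),
          ((Finset.univ.filter (fun i => ‖s₀ - ρ i‖ ≤ 2 ^ (h + 1))).card : ℝ) * (4 : ℝ)⁻¹ ^ h := by
        apply Finset.sum_congr rfl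
        intro h _
        rw [← Finset.sum_filter, Finset.sum_const, nsmul_eq_mul]
    _ ≤ ∑ h ∈ Finset.range (H + 1), 150 * C * l * (((h : ℝ) + 8) / 2 ^ h) := by
        apply Finset.sum_le_sum
        intro h _
        have h1 := hcnt h
        have h2 := SQ2_MM C l hC hl h
        have h3 : (0 : ℝ) < (4 : ℝ)⁻¹ ^ h := by positivity
        have h4 : ((Finset.univ.filter (fun i => ‖s₀ - ρ i‖ ≤ 2 ^ (h + 1))).card : ℝ) * (4 : ℝ)⁻¹ ^ h ≤
            (150 * C * l * ((h : ℝ) + 8) * 2 ^ h) * (4 : ℝ)⁻¹ ^ h :=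
          mul_le_mul_of_nonneg_right (by linarith) h3.le
        refine h4.trans (le_of_eq ?_)
        have h5 : (4 : ℝ) ^ h = 2 ^ h * 2 ^ h := by
          rw [← mul_pow]
          norm_num
        rw [inv_pow, h5]
        have h6 : (2 : ℝ) ^ h ≠ 0 := by positivity
        field_simp
    _ = 150 * C * l * (18 - (((H + 1 : ℕ) : ℝ) + 9) * 2 / 2 ^ (H + 1)) := by
        rw [← Finset.mul_sum, SQ2_geom]
    _ ≤ 2700 * C * l := by
        have h1 : 0 ≤ (((H + 1 : ℕ) : ℝ) + 9) * 2 / 2 ^ (H + 1) := by positivity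
        have h2 : 0 ≤ 150 * C * l := by positivity
        nlinarith

end Pool.Agent.CHE
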